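import Pool.Agent.Lib.MP_8916ec_co.Main

set_option autoImplicit false

namespace Pool.Agent.Results.MP_8916ec_co.RankDim

open Pool.Agent.Lib.MP_8916ec_co

/-- Let `Y ⊆ ℝ^d` be any set and `M` the `𝕋`-semimodule of functions on `Y` generated by real-valued
functions `g_1, …, g_l`.
* If `Y` is compact and the `g_j` are continuous (for instance piecewise linear), then
  `troprank M = dim M`.
* With coefficients in `ℝ ∪ {∞}`, `troprank M = dim M` for every `Y`.
* With real coefficients, `troprank M = dim M` if all differences `g_i - g_j` are bounded, and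
  `troprank M = ∞` otherwise. The latter occurs: `Y = ℝ`, `M` generated by `0` and `x`,
  `dim M = 2`. -/
theorem result :
    (∀ (d : ℕ) (Y : Set (Fin d → ℝ)) (l : ℕ) (g : Fin l → Y → ℝ) (M : Submodule TT (Y → TT)),
      M = Submodule.span TT (Set.range fun j => toT (g j)) →
        (IsCompact Y → (∀ j, Continuous (g j)) → tropRank M = dimM M g) ∧
        tropRankT M = dimM M g ∧
        ((∀ i j, ∃ B : ℝ, ∀ x, g i x - g j x ≤ B) → tropRank M = dimM M g) ∧
        ((∃ i j, ∀ B : ℝ, ∃ x, B < g i x - g j x) → tropRank M = ⊤)) ∧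
    ∃ (Y : Set (Fin 1 → ℝ)) (g : Fin 2 → Y → ℝ), IsPolyhedralSubspace Y ∧ (∀ j, IsPL Y (g j)) ∧
      tropRank (Submodule.span TT (Set.range fun j => toT (g j))) = ⊤ ∧
      dimM (Submodule.span TT (Set.range fun j => toT (g j))) g = 2 := by
  refine ⟨?_, Set.univ, lineGen, line_example⟩
  intro d Y l g M hM
  obtain ⟨h1, h2, h3⟩ := main_general g M hM
  exact ⟨fun hY hg => h2 (bounded_of_compact hY g hg), h1, h2, h3⟩

end Pool.Agent.Results.MP_8916ec_co.RankDim
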